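import Pool.Agent.W728.PK.Stms

/-!
# Taylor bound at a common zero (subtask A1 of the project PK of helper728)
-/

namespace Pool.Agent.W351.PK

open Complex Metric Set Filter Topology MeasureTheory
open scoped Real ComplexConjugate
open Pool.Agent.W728.PK

theorem seg_mem {z ζ : ℂ} (hz : z ∈ ball (0 : ℂ) 1) (hζ : ζ ∈ sphere (0 : ℂ) 1) {t : ℝ}
    (h0 : 0 ≤ t) (h1 : t < 1) : z + (t : ℂ) * (ζ - z) ∈ ball (0 : ℂ) 1 := by
  rw [mem_ball_zero_iff] at hz ⊢
  rw [mem_sphere_zero_iff_norm] at hζ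
  have h2 : z + (t : ℂ) * (ζ - z) = ((1 - t : ℝ) : ℂ) * z + (t : ℂ) * ζ := by
    push_cast
    ring
  rw [h2]
  refine (norm_add_le _ _).trans_lt ?_
  rw [norm_mul, norm_mul, Complex.norm_real, Complex.norm_real, hζ, Real.norm_eq_abs,
    Real.norm_eq_abs, abs_of_nonneg h0, abs_of_pos (by linarith : 0 < 1 - t)]
  nlinarith

theorem step {F F' : ℂ → ℂ} {ζ : ℂ} (hζ : ζ ∈ sphere (0 : ℂ) 1) {B : ℝ} (hB : 0 ≤ B) (k : ℕ)
    (hd : ∀ z ∈ ball (0 : ℂ) 1, HasDerivAt F (F' z) z)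
    (hb : ∀ z ∈ ball (0 : ℂ) 1, ‖F' z‖ ≤ B * (‖z - ζ‖ ^ k / k.factorial))
    (hl : Tendsto F (𝓝[ball (0 : ℂ) 1] ζ) (𝓝 0)) :
    ∀ z ∈ ball (0 : ℂ) 1, ‖F z‖ ≤ B * (‖z - ζ‖ ^ (k + 1) / (k + 1).factorial) := by
  intro z hz
  set γ : ℝ → ℂ := fun t => z + (t : ℂ) * (ζ - z) with hγ
  have hγd : ∀ t : ℝ, HasDerivAt γ (ζ - z) t := by
    intro t
    have h1 : HasDerivAt (fun t : ℝ => (t : ℂ)) 1 t := Complex.ofRealCLM.hasDerivAt
    have h2 := (h1.mul_const (ζ - z)).const_add z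
    rw [one_mul] at h2
    exact h2
  have hγn : ∀ t : ℝ, t ≤ 1 → ‖γ t - ζ‖ = (1 - t) * ‖z - ζ‖ := by
    intro t ht
    have h1 : γ t - ζ = ((1 - t : ℝ) : ℂ) * (z - ζ) := by
      simp only [hγ]
      push_cast
      ring
    rw [h1, norm_mul, Complex.norm_real, Real.norm_eq_abs, abs_of_nonneg (by linarith)]
  set D : ℝ := B * ‖z - ζ‖ ^ (k + 1) with hD
  have hD0 : 0 ≤ D := by positivity
  set β : ℝ → ℝ := fun t => D / (k + 1).factorial * (1 - (1 - t) ^ (k + 1)) with hβ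
  have hβd : ∀ t : ℝ, HasDerivAt β (D / k.factorial * (1 - t) ^ k) t := by
    intro t
    have h1 : HasDerivAt (fun t : ℝ => 1 - t) (-1) t := by
      simpa using (hasDerivAt_id t).const_sub 1
    have h2 := ((h1.pow (k + 1)).const_sub 1).const_mul (D / ((k + 1).factorial : ℝ))
    have h5 : D / ((k + 1).factorial : ℝ) * -(((k + 1 : ℕ) : ℝ) * (1 - t) ^ (k + 1 - 1) * -1) =
        D / k.factorial * (1 - t) ^ k := by
      rw [Nat.factorial_succ]
      have h3 : ((k.factorial : ℕ) : ℝ) ≠ 0 := by positivity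
      have h4 : ((k : ℝ) + 1) ≠ 0 := by positivity
      push_cast
      field_simp
    rw [← h5]
    exact h2
  have hkey : ∀ T : ℝ, 0 ≤ T → T < 1 → ‖F (γ T) - F (γ 0)‖ ≤ D / (k + 1).factorial := by
    intro T hT0 hT1
    have h1 : ∀ x ∈ Icc (0 : ℝ) T, HasDerivAt (fun t => F (γ t) - F (γ 0)) (F' (γ x) * (ζ - z)) x := by
      intro x hx
      have h2 := (hd (γ x) (seg_mem hz hζ hx.1 (lt_of_le_of_lt hx.2 hT1))).comp x (hγd x)
      exact h2.sub_const _
    have h2 := image_norm_le_of_norm_deriv_right_le_deriv_boundary'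
      (f := fun t => F (γ t) - F (γ 0)) (f' := fun x => F' (γ x) * (ζ - z)) (a := 0) (b := T)
      (B := β) (B' := fun t => D / k.factorial * (1 - t) ^ k)
      (fun x hx => (h1 x hx).continuousAt.continuousWithinAt)
      (fun x hx => (h1 x (Ico_subset_Icc_self hx)).hasDerivWithinAt)
      (by simp [hβ])
      (fun x _ => (hβd x).continuousAt.continuousWithinAt)
      (fun x _ => (hβd x).hasDerivWithinAt)
      (by
        intro x hx
        have hx1 : x ≤ 1 := by linarith [hx.2]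
        have h3 := hb (γ x) (seg_mem hz hζ hx.1 (lt_trans hx.2 hT1))
        rw [hγn x hx1] at h3
        rw [norm_mul, norm_sub_rev ζ z]
        refine (mul_le_mul_of_nonneg_right h3 (norm_nonneg _)).trans (le_of_eq ?_)
        rw [hD, mul_pow]
        ring)
      (x := T) ⟨hT0, le_rfl⟩
    refine h2.trans ?_
    simp only [hβ]
    have h4 : 0 ≤ (1 - T) ^ (k + 1) := pow_nonneg (by linarith) _
    have h5 : 0 ≤ D / ((k + 1).factorial : ℝ) := by positivity
    nlinarith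
  have hγl : Tendsto γ (𝓝[<] (1 : ℝ)) (𝓝[ball (0 : ℂ) 1] ζ) := by
    rw [tendsto_nhdsWithin_iff]
    constructor
    · have h1 : Tendsto γ (𝓝 1) (𝓝 (γ 1)) := (hγd 1).continuousAt
      have h2 : γ 1 = ζ := by simp [hγ]
      rw [h2] at h1
      exact h1.mono_left nhdsWithin_le_nhds
    · have h3 : Ico (0 : ℝ) 1 ∈ 𝓝[<] (1 : ℝ) := Ico_mem_nhdsLT one_pos
      filter_upwards [h3] with t ht
      exact seg_mem hz hζ ht.1 ht.2
  have hlim : Tendsto (fun t => ‖F (γ t) - F (γ 0)‖) (𝓝[<] (1 : ℝ)) (𝓝 ‖(0 : ℂ) - F (γ 0)‖) :=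
    ((hl.comp hγl).sub_const _).norm
  have h6 : ‖(0 : ℂ) - F (γ 0)‖ ≤ D / (k + 1).factorial := by
    refine le_of_tendsto hlim ?_
    have h3 : Ico (0 : ℝ) 1 ∈ 𝓝[<] (1 : ℝ) := Ico_mem_nhdsLT one_pos
    filter_upwards [h3] with t ht
    exact hkey t ht.1 ht.2
  have h7 : γ 0 = z := by simp [hγ]
  rw [zero_sub, norm_neg, h7] at h6
  rw [hD] at h6
  rw [← mul_div_assoc]
  exact h6

theorem t_A1 : Pool.Agent.W728.PK.A1_stmt := by
  intro α hα f C hf hC ζ hζ hl n z hz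
  set B : ℝ := C ^ (n + 1) * ((n.factorial : ℝ)) ^ (1 + 1 / α) with hBdef
  have hB : 0 ≤ B := (norm_nonneg _).trans (hC n 0 (by simp))
  have hd : ∀ (m : ℕ), ∀ z ∈ ball (0 : ℂ) 1,
      HasDerivAt (iteratedDeriv m f) (iteratedDeriv (m + 1) f z) z := by
    intro m z hz
    have h1 : AnalyticAt ℂ f z := hf.analyticAt (isOpen_ball.mem_nhds hz)
    have h2 : AnalyticAt ℂ (iteratedDeriv m f) z := by
      rw [iteratedDeriv_eq_iterate]
      exact h1.iterated_deriv m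
    rw [iteratedDeriv_succ]
    exact h2.differentiableAt.hasDerivAt
  have hind : ∀ k : ℕ, k ≤ n → ∀ z ∈ ball (0 : ℂ) 1,
      ‖iteratedDeriv (n - k) f z‖ ≤ B * (‖z - ζ‖ ^ k / k.factorial) := by
    intro k
    induction k with
    | zero =>
      intro _ z hz
      have h := hC n z hz
      rw [← hBdef] at h
      simpa using h
    | succ k ih =>
      intro hk z hz
      have h1 : n - k = (n - (k + 1)) + 1 := by omega
      refine step hζ hB k (F := iteratedDeriv (n - (k + 1)) f) (F' := iteratedDeriv (n - k) f)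
        ?_ (ih (by omega)) (hl _) z hz
      intro w hw
      rw [h1]
      exact hd _ w hw
  have h := hind n le_rfl z hz
  rw [Nat.sub_self, iteratedDeriv_zero] at h
  refine h.trans (le_of_eq ?_)
  have h3 : (0 : ℝ) < (n.factorial : ℝ) := by positivity
  rw [hBdef, Real.rpow_add h3, Real.rpow_one]
  field_simp

end Pool.Agent.W351.PK
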